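import Pool.Agent.H48.MRDP.Forall
import Pool.Agent.H82.MRDP.Fn

set_option autoImplicit false

/-!
# The bounded quantifier theorem for Diophantine sets
-/

namespace Pool.Agent.H48.MRDP

open Dioph

/-- Diophantine sets are closed under bounded universal quantification. -/
theorem forall_dioph {α : Type} {S : Set (Option α → ℕ)} (hS : Dioph S) {f : (α → ℕ) → ℕ}
    (hf : DiophFn f) : Dioph {v : α → ℕ | ∀ k < f v, (Option.elim' k v) ∈ S} :=
  forall_dioph_of (fun h => Pool.Agent.H82.MRDP.factorial_dioph h)
    (fun h h' => Pool.Agent.H82.MRDP.descFactorial_dioph h h')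
    (fun h h' => Pool.Agent.H82.MRDP.prod_dioph h h') hS hf

end Pool.Agent.H48.MRDP
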