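import Pool.Agent.H48.MRDP.Davis

set_option autoImplicit false

/-!
# Diophantine sets as projections of finite lists of basic equations
-/

namespace Pool.Agent.H48.MRDP

open Dioph Function Sum

/-- Basic equations `x_i = 1`, `x_i + x_j = x_k`, `x_i x_j = x_k`. -/
inductive Bas
  | one (i : ℕ) : Bas
  | add (i j k : ℕ) : Bas
  | mul (i j k : ℕ) : Bas

/-- The equation holds for the assignment `x`. -/
def Bas.holds (x : ℕ → ℕ) : Bas → Prop
  | .one i => x i = 1
  | .add i j k => x i + x j = x k
  | .mul i j k => x i * x j = x k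

/-- All indices are smaller than `s`. -/
def Bas.below (s : ℕ) : Bas → Prop
  | .one i => i < s
  | .add i j k => i < s ∧ j < s ∧ k < s
  | .mul i j k => i < s ∧ j < s ∧ k < s

theorem Bas.below_mono {s s' : ℕ} (h : s ≤ s') (e : Bas) (he : e.below s) : e.below s' := by
  cases e with
  | one i => exact lt_of_lt_of_le he h
  | add i j k => exact ⟨he.1.trans_le h, he.2.1.trans_le h, he.2.2.trans_le h⟩
  | mul i j k => exact ⟨he.1.trans_le h, he.2.1.trans_le h, he.2.2.trans_le h⟩

theorem Bas.holds_congr {s : ℕ} (e : Bas) (he : e.below s) (x y : ℕ → ℕ)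
    (h : ∀ i < s, x i = y i) (hx : e.holds x) : e.holds y := by
  cases e with
  | one i => change y i = 1; rw [← h i he]; exact hx
  | add i j k =>
    change y i + y j = y k
    rw [← h i he.1, ← h j he.2.1, ← h k he.2.2]; exact hx
  | mul i j k =>
    change y i * y j = y k
    rw [← h i he.1, ← h j he.2.1, ← h k he.2.2]; exact hx

/-- Natural polynomial terms. -/
inductive NT
  | var (i : ℕ) : NT
  | const (n : ℕ) : NT
  | add (a b : NT) : NT
  | mul (a b : NT) : NT

/-- Value of a term. -/
def NT.eval (x : ℕ → ℕ) : NT → ℕ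
  | .var i => x i
  | .const n => n
  | .add a b => a.eval x + b.eval x
  | .mul a b => a.eval x * b.eval x

/-- All variables are smaller than `s`. -/
def NT.bd (s : ℕ) : NT → Prop
  | .var i => i < s
  | .const _ => True
  | .add a b => a.bd s ∧ b.bd s
  | .mul a b => a.bd s ∧ b.bd s

theorem NT.bd_mono {s s' : ℕ} (h : s ≤ s') (t : NT) (ht : t.bd s) : t.bd s' := by
  induction t with
  | var i => exact lt_of_lt_of_le ht h
  | const n => trivial
  | add a b iha ihb => exact ⟨iha ht.1, ihb ht.2⟩
  | mul a b iha ihb => exact ⟨iha ht.1, ihb ht.2⟩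

theorem NT.eval_congr {s : ℕ} (t : NT) (ht : t.bd s) (x y : ℕ → ℕ)
    (h : ∀ i < s, x i = y i) : t.eval x = t.eval y := by
  induction t with
  | var i => exact h i ht
  | const n => rfl
  | add a b iha ihb => rw [NT.eval, NT.eval, iha ht.1, ihb ht.2]
  | mul a b iha ihb => rw [NT.eval, NT.eval, iha ht.1, ihb ht.2]

/-- What a compiled list of equations does. -/
def Good (s : ℕ) (val : (ℕ → ℕ) → ℕ) (L : List Bas) (k s' : ℕ) : Prop :=
  s ≤ s' ∧ k < s' ∧ (∀ e ∈ L, e.below s') ∧
    (∀ x : ℕ → ℕ, (∀ e ∈ L, e.holds x) → x k = val x) ∧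
    ∀ x : ℕ → ℕ, ∃ x' : ℕ → ℕ, (∀ i < s, x' i = x i) ∧ ∀ e ∈ L, e.holds x'

theorem compile_const (n s : ℕ) : ∃ L k s', Good s (fun _ => n) L k s' := by
  induction n generalizing s with
  | zero =>
    refine ⟨[.add s s s], s, s + 1, by omega, by omega, ?_, ?_, ?_⟩
    · intro e he
      rw [List.mem_singleton] at he
      subst he
      exact ⟨by omega, by omega, by omega⟩
    · intro x hx
      have h := hx _ (List.mem_singleton.mpr rfl)
      change x s + x s = x s at h
      change x s = 0
      omega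
    · intro x
      refine ⟨fun i => if i < s then x i else 0, ?_, ?_⟩
      · intro i hi
        simp [hi]
      · intro e he
        rw [List.mem_singleton] at he
        subst he
        simp [Bas.holds]
  | succ n ih =>
    obtain ⟨L, k, s', h1, h2, h3, h4, h5⟩ := ih s
    refine ⟨.one s' :: .add k s' (s' + 1) :: L, s' + 1, s' + 2, by omega, by omega, ?_, ?_, ?_⟩
    · intro e he
      rw [List.mem_cons, List.mem_cons] at he
      rcases he with rfl | rfl | he
      · change s' < s' + 2; omega
      · exact ⟨by omega, by omega, by omega⟩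
      · exact Bas.below_mono (by omega) e (h3 e he)
    · intro x hx
      have h6 := hx (.one s') (by simp)
      have h7 := hx (.add k s' (s' + 1)) (by simp)
      have h8 : x k = n := h4 x (fun e he => hx e (by simp [he]))
      change x s' = 1 at h6
      change x k + x s' = x (s' + 1) at h7
      change x (s' + 1) = n + 1
      omega
    · intro x
      obtain ⟨x', h6, h7⟩ := h5 x
      refine ⟨fun i => if i < s' then x' i else if i = s' then 1 else n + 1, ?_, ?_⟩
      · intro i hi
        simp [show i < s' by omega, h6 i hi]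
      · have h8 := h4 x' h7
        intro e he
        rw [List.mem_cons, List.mem_cons] at he
        rcases he with rfl | rfl | he
        · simp [Bas.holds]
        · simp [Bas.holds, h2, h8]
        · refine Bas.holds_congr e (h3 e he) x' _ (fun i hi => ?_) (h7 e he)
          simp [hi]

theorem compile (t : NT) : ∀ s, t.bd s → ∃ L k s', Good s (fun x => t.eval x) L k s' := by
  induction t with
  | var i =>
    intro s hs
    refine ⟨[], i, s, le_rfl, hs, by simp, fun x _ => rfl, fun x => ⟨x, fun _ _ => rfl, by simp⟩⟩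
  | const n =>
    intro s _
    exact compile_const n s
  | add a b iha ihb =>
    intro s hs
    obtain ⟨L1, k1, s1, h1, h2, h3, h4, h5⟩ := iha s hs.1
    obtain ⟨L2, k2, s2, g1, g2, g3, g4, g5⟩ := ihb s1 (NT.bd_mono h1 b hs.2)
    refine ⟨.add k1 k2 s2 :: (L1 ++ L2), s2, s2 + 1, by omega, by omega, ?_, ?_, ?_⟩
    · intro e he
      rw [List.mem_cons, List.mem_append] at he
      rcases he with rfl | he | he
      · exact ⟨by omega, by omega, by omega⟩
      · exact Bas.below_mono (by omega) e (h3 e he)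
      · exact Bas.below_mono (by omega) e (g3 e he)
    · intro x hx
      have h6 := hx (.add k1 k2 s2) (by simp)
      have h7 := h4 x (fun e he => hx e (by simp [he]))
      have h8 := g4 x (fun e he => hx e (by simp [he]))
      change x k1 + x k2 = x s2 at h6
      rw [← h6, h7, h8]
      rfl
    · intro x
      obtain ⟨x1, h6, h7⟩ := h5 x
      obtain ⟨x2, g6, g7⟩ := g5 x1
      refine ⟨fun i => if i < s2 then x2 i else x2 k1 + x2 k2, ?_, ?_⟩
      · intro i hi
        simp [show i < s2 by omega, g6 i (by omega), h6 i hi]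
      · intro e he
        rw [List.mem_cons, List.mem_append] at he
        rcases he with rfl | he | he
        · simp [Bas.holds, g2, show k1 < s2 by omega]
        · refine Bas.holds_congr e (h3 e he) x1 _ (fun i hi => ?_) (h7 e he)
          simp [show i < s2 by omega, g6 i hi]
        · refine Bas.holds_congr e (g3 e he) x2 _ (fun i hi => ?_) (g7 e he)
          simp [hi]
  | mul a b iha ihb =>
    intro s hs
    obtain ⟨L1, k1, s1, h1, h2, h3, h4, h5⟩ := iha s hs.1
    obtain ⟨L2, k2, s2, g1, g2, g3, g4, g5⟩ := ihb s1 (NT.bd_mono h1 b hs.2)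
    refine ⟨.mul k1 k2 s2 :: (L1 ++ L2), s2, s2 + 1, by omega, by omega, ?_, ?_, ?_⟩
    · intro e he
      rw [List.mem_cons, List.mem_append] at he
      rcases he with rfl | he | he
      · exact ⟨by omega, by omega, by omega⟩
      · exact Bas.below_mono (by omega) e (h3 e he)
      · exact Bas.below_mono (by omega) e (g3 e he)
    · intro x hx
      have h6 := hx (.mul k1 k2 s2) (by simp)
      have h7 := h4 x (fun e he => hx e (by simp [he]))
      have h8 := g4 x (fun e he => hx e (by simp [he]))
      change x k1 * x k2 = x s2 at h6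
      rw [← h6, h7, h8]
      rfl
    · intro x
      obtain ⟨x1, h6, h7⟩ := h5 x
      obtain ⟨x2, g6, g7⟩ := g5 x1
      refine ⟨fun i => if i < s2 then x2 i else x2 k1 * x2 k2, ?_, ?_⟩
      · intro i hi
        simp [show i < s2 by omega, g6 i (by omega), h6 i hi]
      · intro e he
        rw [List.mem_cons, List.mem_append] at he
        rcases he with rfl | he | he
        · simp [Bas.holds, g2, show k1 < s2 by omega]
        · refine Bas.holds_congr e (h3 e he) x1 _ (fun i hi => ?_) (h7 e he)
          simp [show i < s2 by omega, g6 i hi]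
        · refine Bas.holds_congr e (g3 e he) x2 _ (fun i hi => ?_) (g7 e he)
          simp [hi]

/-- An integer polynomial is a difference of two natural terms. -/
theorem poly_terms {γ : Type} (p : Poly γ) (e : γ → ℕ) (s : ℕ) (he : ∀ i, e i < s) :
    ∃ P N : NT, P.bd s ∧ N.bd s ∧
      ∀ (v : γ → ℕ) (x : ℕ → ℕ), (∀ i, x (e i) = v i) → p v = (P.eval x : ℤ) - N.eval x := by
  induction p using Poly.induction with
  | H1 i =>
    refine ⟨.var (e i), .const 0, he i, trivial, fun v x h => ?_⟩
    simp [NT.eval, h]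
  | H2 n =>
    refine ⟨.const n.toNat, .const (-n).toNat, trivial, trivial, fun v x _ => ?_⟩
    change n = (n.toNat : ℤ) - ((-n).toNat : ℤ)
    omega
  | H3 f g hf hg =>
    obtain ⟨P1, N1, a1, b1, h1⟩ := hf
    obtain ⟨P2, N2, a2, b2, h2⟩ := hg
    refine ⟨.add P1 N2, .add N1 P2, ⟨a1, b2⟩, ⟨b1, a2⟩, fun v x h => ?_⟩
    rw [Poly.sub_apply, h1 v x h, h2 v x h, NT.eval, NT.eval]
    push_cast
    ring
  | H4 f g hf hg =>
    obtain ⟨P1, N1, a1, b1, h1⟩ := hf
    obtain ⟨P2, N2, a2, b2, h2⟩ := hg
    refine ⟨.add (.mul P1 P2) (.mul N1 N2), .add (.mul P1 N2) (.mul N1 P2),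
      ⟨⟨a1, a2⟩, ⟨b1, b2⟩⟩, ⟨⟨a1, b2⟩, ⟨b1, a2⟩⟩, fun v x h => ?_⟩
    rw [Poly.mul_apply, h1 v x h, h2 v x h]
    simp only [NT.eval]
    push_cast
    ring

/-- Module C1: a Diophantine set of numbers is given by a finite list of basic equations. -/
theorem exists_bas (S : Set ℕ) (hS : Dioph {v : Unit → ℕ | v () ∈ S}) :
    ∃ L : List Bas, ∀ n, n ∈ S ↔ ∃ x : ℕ → ℕ, x 0 = n ∧ ∀ e ∈ L, e.holds x := by
  classical
  obtain ⟨β, hβ, p, hp⟩ := dioph_fin hS
  let m := Fintype.card β
  let φ : β ≃ Fin m := Fintype.equivFin β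
  let e : Unit ⊕ β → ℕ := Sum.elim (fun _ => 0) (fun i => (φ i).1 + 1)
  have he : ∀ i, e i < m + 1 := by
    rintro (i | i)
    · exact Nat.succ_pos _
    · exact Nat.succ_lt_succ (φ i).2
  obtain ⟨P, N, hP, hN, hPN⟩ := poly_terms p e (m + 1) he
  obtain ⟨L1, k1, s1, h1, h2, h3, h4, h5⟩ := compile P (m + 1) hP
  obtain ⟨L2, k2, s2, g1, g2, g3, g4, g5⟩ := compile N s1 (NT.bd_mono h1 N hN)
  refine ⟨.add s2 s2 s2 :: .add k1 s2 k2 :: (L1 ++ L2), fun n => ?_⟩
  have hS' : n ∈ S ↔ ∃ t, p (Sum.elim (fun _ => n) t) = 0 := hp (fun _ => n)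
  rw [hS']
  constructor
  · rintro ⟨t, ht⟩
    -- the assignment of the variables
    let x0 : ℕ → ℕ := fun i => if i = 0 then n else
      if h : i - 1 < m then t (φ.symm ⟨i - 1, h⟩) else 0
    obtain ⟨x1, h6, h7⟩ := h5 x0
    obtain ⟨x2, g6, g7⟩ := g5 x1
    have hx2 : ∀ i < m + 1, x2 i = x0 i := fun i hi => by rw [g6 i (by omega), h6 i hi]
    have hxe : ∀ i, x2 (e i) = (Sum.elim (fun _ => n) t : Unit ⊕ β → ℕ) i := by
      intro i
      rw [hx2 _ (he i)]
      rcases i with i | i
      · rfl
      · have h8 : (φ i).1 + 1 - 1 < m := by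
          rw [Nat.add_sub_cancel]; exact (φ i).2
        change (if (φ i).1 + 1 = 0 then n else
          if h : (φ i).1 + 1 - 1 < m then t (φ.symm ⟨(φ i).1 + 1 - 1, h⟩) else 0) = t i
        rw [if_neg (by omega), dif_pos h8]
        congr 1
        rw [Equiv.symm_apply_eq]
        ext
        simp
    have h9 := hPN _ x2 hxe
    rw [ht] at h9
    have hx2L1 : ∀ e ∈ L1, e.holds x2 := fun e he =>
      Bas.holds_congr e (h3 e he) x1 _ (fun i hi => (g6 i hi).symm) (h7 e he)
    have e1 := h4 x2 hx2L1
    have e2 := g4 x2 g7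
    dsimp only at e1 e2
    have e3 : x2 k1 = x2 k2 := by
      rw [e1, e2]
      omega
    refine ⟨fun i => if i < s2 then x2 i else 0, ?_, ?_⟩
    · simp only [show 0 < s2 by omega, if_true]
      rw [hx2 0 (by omega)]
      simp [x0]
    · intro e' he'
      rw [List.mem_cons, List.mem_cons, List.mem_append] at he'
      rcases he' with rfl | rfl | he' | he'
      · simp [Bas.holds]
      · simp [Bas.holds, g2, show k1 < s2 by omega, e3]
      · refine Bas.holds_congr e' (h3 e' he') x2 _ (fun i hi => ?_) (hx2L1 e' he')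
        simp [show i < s2 by omega]
      · refine Bas.holds_congr e' (g3 e' he') x2 _ (fun i hi => ?_) (g7 e' he')
        simp [hi]
  · rintro ⟨x, hx0, hx⟩
    refine ⟨fun i => x ((φ i).1 + 1), ?_⟩
    have h6 := hx (.add s2 s2 s2) (by simp)
    have h7 := hx (.add k1 s2 k2) (by simp)
    have e1 := h4 x (fun e he => hx e (by simp [he]))
    have e2 := g4 x (fun e he => hx e (by simp [he]))
    change x s2 + x s2 = x s2 at h6
    change x k1 + x s2 = x k2 at h7
    dsimp only at e1 e2
    rw [hPN _ x (by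
      rintro (i | i)
      · exact hx0
      · rfl), ← e1, ← e2]
    omega

end Pool.Agent.H48.MRDP
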