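import Mathlib

set_option autoImplicit false

/-!
# The bounded quantifier theorem: polynomial lemmas and the number theoretic lemma
-/

namespace Pool.Agent.H48.MRDP

open Dioph Function Sum Finset

/-- A polynomial depends on finitely many variables. -/
theorem poly_supp {γ : Type} (p : Poly γ) :
    ∃ F : Finset γ, ∀ v w : γ → ℕ, (∀ i ∈ F, v i = w i) → p v = p w := by
  classical
  induction p using Poly.induction with
  | H1 i => exact ⟨{i}, fun v w h => by simp [h i (by simp)]⟩
  | H2 n => exact ⟨∅, fun v w _ => rfl⟩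
  | H3 f g hf hg =>
    obtain ⟨F, hF⟩ := hf
    obtain ⟨G, hG⟩ := hg
    refine ⟨F ∪ G, fun v w h => ?_⟩
    rw [Poly.sub_apply, Poly.sub_apply, hF v w (fun i hi => h i (by simp [hi])),
      hG v w (fun i hi => h i (by simp [hi]))]
  | H4 f g hf hg =>
    obtain ⟨F, hF⟩ := hf
    obtain ⟨G, hG⟩ := hg
    refine ⟨F ∪ G, fun v w h => ?_⟩
    rw [Poly.mul_apply, Poly.mul_apply, hF v w (fun i hi => h i (by simp [hi])),
      hG v w (fun i hi => h i (by simp [hi]))]

/-- One can take finitely many dummies. -/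
theorem dioph_fin {α : Type} {S : Set (α → ℕ)} (hS : Dioph S) :
    ∃ (β : Type) (_ : Fintype β) (p : Poly (α ⊕ β)), ∀ v, v ∈ S ↔ ∃ t, p (Sum.elim v t) = 0 := by
  classical
  obtain ⟨β, p, hp⟩ := hS
  obtain ⟨F, hF⟩ := poly_supp p
  let G : Finset β := F.preimage inr (Set.injOn_of_injective inr_injective)
  have hG : ∀ i, i ∈ G ↔ inr i ∈ F := fun i => Finset.mem_preimage
  let g : β → Option G := fun i => if h : i ∈ G then some ⟨i, h⟩ else none
  refine ⟨Option G, inferInstance, p.map (Sum.elim inl (inr ∘ g)), fun v => (hp v).trans ?_⟩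
  constructor
  · rintro ⟨t, ht⟩
    refine ⟨fun j => j.elim 0 (fun i => t i.1), ?_⟩
    rw [Poly.map_apply, ← ht]
    apply hF
    rintro (i | i) hi
    · rfl
    · have hi' : i ∈ G := (hG i).mpr hi
      simp only [Function.comp_apply, Sum.elim_inr, g, dif_pos hi']
      rfl
  · rintro ⟨t, ht⟩
    refine ⟨t ∘ g, ?_⟩
    rw [Poly.map_apply] at ht
    rw [← ht]
    congr 1
    ext (i | i) <;> rfl

/-- A monotone Diophantine majorant. -/
theorem poly_bound {γ : Type} (p : Poly γ) :
    ∃ M : (γ → ℕ) → ℕ, DiophFn M ∧ Monotone M ∧ ∀ w, (p w).natAbs ≤ M w := by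
  induction p using Poly.induction with
  | H1 i => exact ⟨fun w => w i, proj_dioph i, fun v w h => h i, fun w => by simp⟩
  | H2 n => exact ⟨fun _ => n.natAbs, const_dioph _, fun v w _ => le_rfl, fun w => le_rfl⟩
  | H3 f g hf hg =>
    obtain ⟨M, hM1, hM2, hM3⟩ := hf
    obtain ⟨M', hM1', hM2', hM3'⟩ := hg
    refine ⟨fun w => M w + M' w, add_dioph hM1 hM1', fun v w h => add_le_add (hM2 h) (hM2' h),
      fun w => ?_⟩
    rw [Poly.sub_apply]
    exact (Int.natAbs_sub_le _ _).trans (add_le_add (hM3 w) (hM3' w))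
  | H4 f g hf hg =>
    obtain ⟨M, hM1, hM2, hM3⟩ := hf
    obtain ⟨M', hM1', hM2', hM3'⟩ := hg
    refine ⟨fun w => M w * M' w, mul_dioph hM1 hM1', fun v w h => Nat.mul_le_mul (hM2 h) (hM2' h),
      fun w => ?_⟩
    rw [Poly.mul_apply, Int.natAbs_mul]
    exact Nat.mul_le_mul (hM3 w) (hM3' w)

/-- Polynomials respect congruences. -/
theorem poly_modEq {γ : Type} (p : Poly γ) (m : ℤ) (v w : γ → ℕ)
    (h : ∀ i, (v i : ℤ) ≡ w i [ZMOD m]) : p v ≡ p w [ZMOD m] := by
  induction p using Poly.induction with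
  | H1 i => simpa using h i
  | H2 n => simp
  | H3 f g hf hg => rw [Poly.sub_apply, Poly.sub_apply]; exact hf.sub hg
  | H4 f g hf hg => rw [Poly.mul_apply, Poly.mul_apply]; exact hf.mul hg

theorem coprime_moduli (Q b : ℕ) (hQ : b ≤ Q) (k k' : ℕ) (hk : k < b) (hk' : k' < b)
    (h : k ≠ k') : Nat.Coprime (1 + (k + 1) * Q.factorial) (1 + (k' + 1) * Q.factorial) := by
  wlog hkk : k < k' generalizing k k'
  · exact (this k' k hk' hk h.symm (by omega)).symm
  rw [Nat.Coprime, Nat.eq_one_iff_not_exists_prime_dvd]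
  intro q hq hdvd
  have h1 : q ∣ 1 + (k + 1) * Q.factorial := hdvd.trans (Nat.gcd_dvd_left _ _)
  have h2 : q ∣ 1 + (k' + 1) * Q.factorial := hdvd.trans (Nat.gcd_dvd_right _ _)
  have hnt : ¬ q ∣ Q.factorial := by
    intro h3
    have h4 : q ∣ 1 := by
      have := (Nat.dvd_add_left (h3.mul_left (k + 1))).mp h1
      exact this
    exact hq.one_lt.ne' (Nat.dvd_one.mp h4)
  have h3 : q ∣ (k' - k) * Q.factorial := by
    have h4 := Nat.dvd_sub h2 h1
    have h5 : 1 + (k' + 1) * Q.factorial - (1 + (k + 1) * Q.factorial) =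
        (k' - k) * Q.factorial := by
      rw [Nat.add_sub_add_left, ← Nat.sub_mul]
      congr 1
      omega
    rwa [h5] at h4
  rcases (hq.dvd_mul).mp h3 with h4 | h4
  · have h5 : q ≤ k' - k := Nat.le_of_dvd (by omega) h4
    exact hnt (Nat.dvd_factorial hq.pos (by omega))
  · exact hnt h4

/-- The number theoretic lemma (Davis). -/
theorem davis {α β : Type} [Fintype β] (p : Poly (Option α ⊕ β)) (v : α → ℕ) (b u Q : ℕ)
    (hb : 0 < b) (hQu : u ≤ Q) (hQb : b ≤ Q)
    (hQ : ∀ k < b, ∀ y : β → ℕ, (∀ i, y i ≤ u) → (p (Sum.elim (Option.elim' k v) y)).natAbs ≤ Q) :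
    (∀ k < b, ∃ y : β → ℕ, (∀ i, y i ≤ u) ∧ p (Sum.elim (Option.elim' k v) y) = 0) ↔
    ∃ (c : ℕ) (a : β → ℕ),
      (∏ k ∈ range b, (1 + (k + 1) * Q.factorial)) = 1 + (c + 1) * Q.factorial ∧
      (∀ i, (∏ k ∈ range b, (1 + (k + 1) * Q.factorial)) ∣ (a i).descFactorial (u + 1)) ∧
      (∏ k ∈ range b, (1 + (k + 1) * Q.factorial)) ∣ (p (Sum.elim (Option.elim' c v) a)).natAbs := by
  classical
  set t := Q.factorial with ht
  set N := ∏ k ∈ range b, (1 + (k + 1) * t) with hN
  have htpos : 0 < t := Nat.factorial_pos Q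
  have hmN : ∀ k < b, (1 + (k + 1) * t) ∣ N := fun k hk =>
    Finset.dvd_prod_of_mem _ (Finset.mem_range.mpr hk)
  have hcop : ∀ k, Nat.Coprime (1 + (k + 1) * t) t := by
    intro k
    rw [Nat.coprime_add_mul_right_left]
    exact Nat.coprime_one_left t
  -- `c ≡ k` modulo the `k`-th modulus
  have hck : ∀ c k : ℕ, k < b → N = 1 + (c + 1) * t → c ≡ k [MOD (1 + (k + 1) * t)] := by
    intro c k hk hc
    have h1 : 1 + (c + 1) * t ≡ 1 + (k + 1) * t [MOD (1 + (k + 1) * t)] := by
      have h2 : 1 + (c + 1) * t ≡ 0 [MOD (1 + (k + 1) * t)] := by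
        rw [← hc]; exact (Nat.modEq_zero_iff_dvd).mpr (hmN k hk)
      have h3 : 1 + (k + 1) * t ≡ 0 [MOD (1 + (k + 1) * t)] :=
        (Nat.modEq_zero_iff_dvd).mpr dvd_rfl
      exact h2.trans h3.symm
    have h2 : (c + 1) * t ≡ (k + 1) * t [MOD (1 + (k + 1) * t)] := Nat.ModEq.add_left_cancel' 1 h1
    have h3 : c + 1 ≡ k + 1 [MOD (1 + (k + 1) * t)] :=
      Nat.ModEq.cancel_right_of_coprime (hcop k) h2
    exact Nat.ModEq.add_right_cancel' 1 h3
  constructor
  · intro h
    choose! Y hY1 hY2 using h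
    have hpp : Set.Pairwise (↑(range b) : Set ℕ)
        (Function.onFun Nat.Coprime fun k => 1 + (k + 1) * t) := by
      intro k hk k' hk' hne
      exact coprime_moduli Q b hQb k k' (by simpa using hk) (by simpa using hk') hne
    have hc : ∃ c, N = 1 + (c + 1) * t := by
      have h1 : N ≡ 1 [MOD t] := by
        have h2 : ∀ s : Finset ℕ, ∏ k ∈ s, (1 + (k + 1) * t) ≡ 1 [MOD t] := by
          intro s
          induction s using Finset.induction_on with
          | empty => simp; rfl
          | insert a s ha ih =>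
            rw [Finset.prod_insert ha]
            have h3 : 1 + (a + 1) * t ≡ 1 [MOD t] := by
              simp [Nat.ModEq]
            exact h3.mul ih
        exact h2 _
      have h2 : 1 < N := by
        have h3 := hmN 0 hb
        have h4 : 0 < N := Finset.prod_pos fun k _ => by positivity
        have h5 := Nat.le_of_dvd h4 h3
        omega
      have h3 : t ∣ N - 1 := (Nat.modEq_iff_dvd' h2.le).mp h1.symm
      obtain ⟨s, hs⟩ := h3
      have h4 : 0 < s := by
        rcases Nat.eq_zero_or_pos s with h5 | h5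
        · subst h5; omega
        · exact h5
      refine ⟨s - 1, ?_⟩
      rw [Nat.sub_add_cancel h4, mul_comm s t, ← hs]
      omega
    obtain ⟨c, hc⟩ := hc
    let a : β → ℕ := fun i => (Nat.chineseRemainderOfFinset (fun k => Y k i)
      (fun k => 1 + (k + 1) * t) (range b) (fun k _ => by positivity) hpp).1
    have ha : ∀ i, ∀ k < b, a i ≡ Y k i [MOD (1 + (k + 1) * t)] := fun i k hk =>
      (Nat.chineseRemainderOfFinset (fun k => Y k i)
      (fun k => 1 + (k + 1) * t) (range b) (fun k _ => by positivity) hpp).2 k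
        (Finset.mem_range.mpr hk)
    -- divisibility by the product
    have hprod : ∀ x : ℕ, (∀ k < b, (1 + (k + 1) * t) ∣ x) → N ∣ x := by
      intro x hx
      have h1 : (∏ k ∈ range b, ((1 + (k + 1) * t : ℕ) : ℤ)) ∣ (x : ℤ) := by
        apply Finset.prod_dvd_of_coprime
        · intro k hk k' hk' hne
          exact Nat.isCoprime_iff_coprime.mpr (hpp hk hk' hne)
        · intro k hk
          exact Int.natCast_dvd_natCast.mpr (hx k (Finset.mem_range.mp hk))
      rw [← Nat.cast_prod] at h1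
      exact Int.natCast_dvd_natCast.mp h1
    refine ⟨c, a, hc, ?_, ?_⟩
    · intro i
      apply hprod
      intro k hk
      rcases Nat.lt_or_ge (a i) (u + 1) with h1 | h1
      · rw [Nat.descFactorial_eq_zero_iff_lt.mpr h1]
        exact dvd_zero _
      · have h2 : Y k i ≤ u := hY1 k hk i
        have h3 : (1 + (k + 1) * t) ∣ a i - Y k i :=
          (Nat.modEq_iff_dvd' (by omega)).mp (ha i k hk).symm
        rw [Nat.descFactorial_eq_prod_range]
        exact h3.trans (Finset.dvd_prod_of_mem (fun j => a i - j) (Finset.mem_range.mpr (by omega)))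
    · apply hprod
      intro k hk
      have h1 : p (Sum.elim (Option.elim' c v) a) ≡ p (Sum.elim (Option.elim' k v) (Y k)) [ZMOD ((1 + (k + 1) * t : ℕ) : ℤ)] := by
        apply poly_modEq
        rintro ((_ | i) | i)
        · exact (Int.natCast_modEq_iff).mpr (hck c k hk hc)
        · exact Int.ModEq.rfl
        · exact (Int.natCast_modEq_iff).mpr (ha i k hk)
      rw [hY2 k hk] at h1
      have h2 := Int.modEq_zero_iff_dvd.mp h1
      exact Int.natCast_dvd.mp h2
  · rintro ⟨c, a, hc, hdesc, hp⟩ k hk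
    -- a prime divisor of the modulus
    have hm2 : 1 + (k + 1) * t ≠ 1 := by
      have : 0 < (k + 1) * t := by positivity
      omega
    set q := Nat.minFac (1 + (k + 1) * t) with hq
    have hqp : q.Prime := Nat.minFac_prime hm2
    have hqm : q ∣ 1 + (k + 1) * t := Nat.minFac_dvd _
    have hqt : ¬ q ∣ t := by
      intro h
      have h4 : q ∣ 1 := (Nat.dvd_add_left (h.mul_left (k + 1))).mp hqm
      exact hqp.one_lt.ne' (Nat.dvd_one.mp h4)
    have hqQ : Q < q := by
      by_contra h
      push Not at h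
      exact hqt (Nat.dvd_factorial hqp.pos h)
    have hqN : q ∣ N := hqm.trans (hmN k hk)
    have hy : ∀ i, a i % q ≤ u := by
      intro i
      have h1 : q ∣ (a i).descFactorial (u + 1) := hqN.trans (hdesc i)
      rw [Nat.descFactorial_eq_prod_range, Prime.dvd_finsetProd_iff hqp.prime] at h1
      obtain ⟨j, hj, hj2⟩ := h1
      rw [Finset.mem_range] at hj
      rcases Nat.lt_or_ge (a i) j with h2 | h2
      · exact (Nat.mod_le _ _).trans (by omega)
      · have h3 : a i ≡ j [MOD q] := ((Nat.modEq_iff_dvd' h2).mpr hj2).symm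
        have h4 : a i % q = j % q := h3
        rw [h4]
        exact (Nat.mod_le _ _).trans (by omega)
    refine ⟨fun i => a i % q, hy, ?_⟩
    have h1 : p (Sum.elim (Option.elim' k v) fun i => a i % q) ≡ p (Sum.elim (Option.elim' c v) a) [ZMOD (q : ℤ)] := by
      apply poly_modEq
      rintro ((_ | i) | i)
      · exact (Int.natCast_modEq_iff).mpr ((hck c k hk hc).symm.of_dvd hqm)
      · exact Int.ModEq.rfl
      · exact (Int.natCast_modEq_iff).mpr (Nat.mod_modEq _ _)
    have h2 : (q : ℤ) ∣ p (Sum.elim (Option.elim' c v) a) := Int.natCast_dvd.mpr (hqN.trans hp)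
    have h3 : (q : ℤ) ∣ p (Sum.elim (Option.elim' k v) fun i => a i % q) :=
      Int.modEq_zero_iff_dvd.mp (h1.trans (Int.modEq_zero_iff_dvd.mpr h2))
    have h4 := hQ k hk (fun i => a i % q) hy
    have h5 : q ∣ (p (Sum.elim (Option.elim' k v) fun i => a i % q)).natAbs := Int.natCast_dvd.mp h3
    rcases Nat.eq_zero_or_pos (p (Sum.elim (Option.elim' k v) fun i => a i % q)).natAbs with h6 | h6
    · exact Int.natAbs_eq_zero.mp h6
    · have := Nat.le_of_dvd h6 h5
      omega

end Pool.Agent.H48.MRDP
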