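import Pool.Agent.H48.MRDP.Davis

set_option autoImplicit false

/-!
# The bounded quantifier theorem
-/

namespace Pool.Agent.H48.MRDP

open Dioph Function Sum Finset

/-- Finite conjunctions. -/
theorem finite_forall {γ β : Type} [Fintype β] (T : β → Set (γ → ℕ)) (h : ∀ i, Dioph (T i)) :
    Dioph {w | ∀ i, w ∈ T i} := by
  classical
  have key : ∀ s : Finset β, Dioph {w | ∀ i ∈ s, w ∈ T i} := by
    intro s
    induction s using Finset.induction_on with
    | empty =>
      refine Dioph.ext (Dioph.of_no_dummies Set.univ 0 (fun v => by simp)) ?_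
      intro v
      simp
    | insert a s ha ih =>
      refine Dioph.ext (Dioph.inter (h a) ih) ?_
      intro v
      simp [Set.mem_inter_iff]
  exact Dioph.ext (key Finset.univ) (fun v => by simp)

/-- The bounded quantifier theorem, with the three Diophantine functions as hypotheses. -/
theorem forall_dioph_of
    (hfact : ∀ {γ : Type} {f : (γ → ℕ) → ℕ}, DiophFn f → DiophFn fun v => (f v).factorial)
    (hdesc : ∀ {γ : Type} {f g : (γ → ℕ) → ℕ}, DiophFn f → DiophFn g →
      DiophFn fun v => (f v).descFactorial (g v))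
    (hprod : ∀ {γ : Type} {f g : (γ → ℕ) → ℕ}, DiophFn f → DiophFn g →
      DiophFn fun v => ∏ k ∈ Finset.range (f v), (1 + (k + 1) * g v))
    {α : Type} {S : Set (Option α → ℕ)} (hS : Dioph S) {f : (α → ℕ) → ℕ} (hf : DiophFn f) :
    Dioph {v : α → ℕ | ∀ k < f v, (Option.elim' k v) ∈ S} := by
  classical
  obtain ⟨β, hβ, p, hp⟩ := dioph_fin hS
  obtain ⟨M, hM1, hM2, hM3⟩ := poly_bound p
  -- variables: c, u, b, then v, and the a's
  let γ : Type := Option (Option (Option α)) ⊕ β
  let ic : γ := inl none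
  let iu : γ := inl (some none)
  let ib : γ := inl (some (some none))
  let g : Option α ⊕ β → γ := Sum.elim (fun o => o.elim ib fun i => inl (some (some (some i)))) fun _ => iu
  let h : Option α ⊕ β → γ := Sum.elim (fun o => o.elim ic fun i => inl (some (some (some i)))) inr
  let Qf : (γ → ℕ) → ℕ := fun w => M (w ∘ g) + w iu + w ib
  have hQf : DiophFn Qf := add_dioph (add_dioph (reindex_diophFn g hM1) (proj_dioph iu))
    (proj_dioph ib)
  let Nf : (γ → ℕ) → ℕ := fun w => ∏ k ∈ Finset.range (w ib), (1 + (k + 1) * (Qf w).factorial)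
  have hNf : DiophFn Nf := hprod (proj_dioph ib) (hfact hQf)
  let T : Set (γ → ℕ) := {w | w ib = f (w ∘ fun i => inl (some (some (some i))))} ∩
    ({w | Nf w = 1 + (w ic + 1) * (Qf w).factorial} ∩
    ({w | ∀ i : β, w ∈ {w : γ → ℕ | Nf w ∣ (w (inr i)).descFactorial (w iu + 1)}} ∩
    {w | Nf w ∣ ((p.map h) w).natAbs}))
  have hT : Dioph T := by
    refine Dioph.inter ?_ (Dioph.inter ?_ (Dioph.inter ?_ ?_))
    · exact eq_dioph (proj_dioph ib) (reindex_diophFn (fun i => inl (some (some (some i)))) hf)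
    · exact eq_dioph hNf (add_dioph (const_dioph 1)
        (mul_dioph (add_dioph (proj_dioph ic) (const_dioph 1)) (hfact hQf)))
    · apply finite_forall
      intro i
      exact dvd_dioph hNf (hdesc (proj_dioph (inr i)) (add_dioph (proj_dioph iu) (const_dioph 1)))
    · exact dvd_dioph hNf (abs_poly_dioph (p.map h))
  have h1 := ex1_dioph (ex1_dioph (ex1_dioph (ex_dioph hT)))
  have h0 : Dioph {v : α → ℕ | f v = 0} := eq_dioph hf (const_dioph 0)
  refine Dioph.ext (Dioph.union h0 h1) ?_
  intro v
  -- unfold the membership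
  have hmem : v ∈ {v | ∃ x, Option.elim' x v ∈ {v | ∃ x, Option.elim' x v ∈ {v | ∃ x, Option.elim' x v ∈
      {v | ∃ x, Sum.elim v x ∈ T}}}} ↔
      ∃ b u c, ∃ a : β → ℕ, b = f v ∧
      (∏ k ∈ range b, (1 + (k + 1) *
        (M (Sum.elim (Option.elim' b v) fun _ => u) + u + b).factorial)) = 1 + (c + 1) *
        (M (Sum.elim (Option.elim' b v) fun _ => u) + u + b).factorial ∧
      (∀ i, (∏ k ∈ range b, (1 + (k + 1) *
        (M (Sum.elim (Option.elim' b v) fun _ => u) + u + b).factorial)) ∣ (a i).descFactorial (u + 1)) ∧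
      (∏ k ∈ range b, (1 + (k + 1) *
        (M (Sum.elim (Option.elim' b v) fun _ => u) + u + b).factorial)) ∣ (p (Sum.elim (Option.elim' c v) a)).natAbs := by
    have hg : ∀ (b u c : ℕ) (a : β → ℕ),
        (Sum.elim (Option.elim' c (Option.elim' u (Option.elim' b v))) a : γ → ℕ) ∘ g = Sum.elim (Option.elim' b v) fun _ => u := by
      intro b u c a
      ext ((_ | i) | i) <;> rfl
    have hh : ∀ (b u c : ℕ) (a : β → ℕ),
        (Sum.elim (Option.elim' c (Option.elim' u (Option.elim' b v))) a : γ → ℕ) ∘ h = Sum.elim (Option.elim' c v) a := by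
      intro b u c a
      ext ((_ | i) | i) <;> rfl
    constructor
    · rintro ⟨b, u, c, a, h1, h2, h3, h4⟩
      refine ⟨b, u, c, a, h1, ?_, ?_, ?_⟩
      · have h2' : (∏ k ∈ Finset.range b, (1 + (k + 1) *
          (M ((Sum.elim (Option.elim' c (Option.elim' u (Option.elim' b v))) a : γ → ℕ) ∘ g) + u + b).factorial)) = 1 + (c + 1) *
          (M ((Sum.elim (Option.elim' c (Option.elim' u (Option.elim' b v))) a : γ → ℕ) ∘ g) + u + b).factorial := h2
        rwa [hg] at h2'
      · intro i
        have h3' : (∏ k ∈ Finset.range b, (1 + (k + 1) *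
          (M ((Sum.elim (Option.elim' c (Option.elim' u (Option.elim' b v))) a : γ → ℕ) ∘ g) + u + b).factorial)) ∣
          (a i).descFactorial (u + 1) := h3 i
        rwa [hg] at h3'
      · have h4' : (∏ k ∈ Finset.range b, (1 + (k + 1) *
          (M ((Sum.elim (Option.elim' c (Option.elim' u (Option.elim' b v))) a : γ → ℕ) ∘ g) + u + b).factorial)) ∣
          (p ((Sum.elim (Option.elim' c (Option.elim' u (Option.elim' b v))) a : γ → ℕ) ∘ h)).natAbs := h4
        rwa [hg, hh] at h4'
    · rintro ⟨b, u, c, a, h1, h2, h3, h4⟩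
      refine ⟨b, u, c, a, h1, ?_, ?_, ?_⟩
      · change (∏ k ∈ Finset.range b, (1 + (k + 1) *
          (M ((Sum.elim (Option.elim' c (Option.elim' u (Option.elim' b v))) a : γ → ℕ) ∘ g) + u + b).factorial)) = 1 + (c + 1) *
          (M ((Sum.elim (Option.elim' c (Option.elim' u (Option.elim' b v))) a : γ → ℕ) ∘ g) + u + b).factorial
        rwa [hg]
      · intro i
        change (∏ k ∈ Finset.range b, (1 + (k + 1) *
          (M ((Sum.elim (Option.elim' c (Option.elim' u (Option.elim' b v))) a : γ → ℕ) ∘ g) + u + b).factorial)) ∣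
          (a i).descFactorial (u + 1)
        rw [hg]
        exact h3 i
      · change (∏ k ∈ Finset.range b, (1 + (k + 1) *
          (M ((Sum.elim (Option.elim' c (Option.elim' u (Option.elim' b v))) a : γ → ℕ) ∘ g) + u + b).factorial)) ∣
          (p ((Sum.elim (Option.elim' c (Option.elim' u (Option.elim' b v))) a : γ → ℕ) ∘ h)).natAbs
        rwa [hg, hh]
  rw [Set.mem_union, hmem]
  -- the majorant hypothesis of the lemma
  have hQ : ∀ u : ℕ, ∀ k < f v, ∀ y : β → ℕ, (∀ i, y i ≤ u) →
      (p (Sum.elim (Option.elim' k v) y)).natAbs ≤ M (Sum.elim (Option.elim' (f v) v) fun _ => u) + u + f v := by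
    intro u k hk y hy
    refine (hM3 _).trans ?_
    have h2 : M (Sum.elim (Option.elim' k v) y) ≤ M (Sum.elim (Option.elim' (f v) v) fun _ => u) := by
      apply hM2
      rintro ((_ | i) | i)
      · exact hk.le
      · exact le_rfl
      · exact hy i
    omega
  constructor
  · rintro (h2 | ⟨b, u, c, a, rfl, h2⟩)
    · intro k hk
      have h2' : f v = 0 := h2
      omega
    · intro k hk
      rw [hp]
      have h3 := (davis p v (f v) u (M (Sum.elim (Option.elim' (f v) v) fun _ => u) + u + f v) (by omega)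
        (by omega) (by omega) (hQ u)).mpr ⟨c, a, h2⟩ k hk
      obtain ⟨y, _, hy⟩ := h3
      exact ⟨y, hy⟩
  · intro h2
    rcases Nat.eq_zero_or_pos (f v) with h3 | h3
    · exact Or.inl h3
    · right
      have h4 : ∀ k < f v, ∃ y : β → ℕ, p (Sum.elim (Option.elim' k v) y) = 0 := fun k hk => (hp _).mp (h2 k hk)
      choose! Y hY using h4
      set u := ∑ k ∈ Finset.range (f v), ∑ i, Y k i with hu
      have hYu : ∀ k < f v, ∀ i, Y k i ≤ u := by
        intro k hk i
        calc Y k i ≤ ∑ i, Y k i := Finset.single_le_sum (fun _ _ => Nat.zero_le _)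
              (Finset.mem_univ i)
          _ ≤ u := Finset.single_le_sum (f := fun k => ∑ i, Y k i) (fun _ _ => Nat.zero_le _)
              (Finset.mem_range.mpr hk)
      obtain ⟨c, a, h5⟩ := (davis p v (f v) u (M (Sum.elim (Option.elim' (f v) v) fun _ => u) + u + f v) (by omega)
        (by omega) (by omega) (hQ u)).mp (fun k hk => ⟨Y k, hYu k hk, hY k hk⟩)
      exact ⟨f v, u, c, a, rfl, h5⟩

end Pool.Agent.H48.MRDP
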