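import Pool.Agent.H48.MRDP.All

set_option autoImplicit false

/-!
# Primitive recursive functions are Diophantine; a noncomputable Diophantine set
-/

namespace Pool.Agent.H48.MRDP

open Dioph Function Sum

section

variable {α : Type} {f g : (α → ℕ) → ℕ}

theorem comp_dioph {h : ℕ → ℕ} (hh : DiophFn fun v : Unit → ℕ => h (v ())) (hg : DiophFn g) :
    DiophFn fun v => h (g v) := by
  -- first the set over `Option (Option α)`
  have h1 : Dioph {u : Option (Option α) → ℕ | h (u none) = u (some none)} := by
    have := reindex_dioph (Option (Option α))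
      (fun o : Option Unit => o.elim (some none) fun _ => none) hh
    exact this
  have h2 : DiophFn fun w : Option α → ℕ => g (w ∘ some) := reindex_diophFn some hg
  have h3 := diophFn_comp1 h1 h2
  exact h3

theorem comp2_dioph {h : ℕ → ℕ → ℕ}
    (hh : DiophFn fun v : Bool → ℕ => h (v false) (v true)) (hf : DiophFn f) (hg : DiophFn g) :
    DiophFn fun v => h (f v) (g v) := by
  have h1 : Dioph {u : Option (Option (Option α)) → ℕ |
      h (u none) (u (some none)) = u (some (some none))} := by
    have := reindex_dioph (Option (Option (Option α)))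
      (fun o : Option Bool => o.elim (some (some none)) fun b => if b then some none else none) hh
    exact this
  have h2 : DiophFn fun w : Option (Option α) → ℕ => f (w ∘ (some ∘ some)) :=
    reindex_diophFn (some ∘ some) hf
  have h3 := diophFn_comp1 h1 h2
  have h4 : DiophFn fun w : Option α → ℕ => g (w ∘ some) := reindex_diophFn some hg
  have h5 := diophFn_comp1 h3 h4
  exact h5

theorem pair_dioph (hf : DiophFn f) (hg : DiophFn g) : DiophFn fun v => Nat.pair (f v) (g v) := by
  have h1 : Dioph {w : Option α → ℕ | (f (w ∘ some) < g (w ∘ some) ∧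
      w none = g (w ∘ some) * g (w ∘ some) + f (w ∘ some)) ∨ (g (w ∘ some) ≤ f (w ∘ some) ∧
      w none = f (w ∘ some) * f (w ∘ some) + f (w ∘ some) + g (w ∘ some))} := by
    have hf' : DiophFn fun w : Option α → ℕ => f (w ∘ some) := reindex_diophFn some hf
    have hg' : DiophFn fun w : Option α → ℕ => g (w ∘ some) := reindex_diophFn some hg
    have hn : DiophFn fun w : Option α → ℕ => w none := proj_dioph none
    exact Dioph.union
      (Dioph.inter (lt_dioph hf' hg') (eq_dioph hn (add_dioph (mul_dioph hg' hg') hf')))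
      (Dioph.inter (le_dioph hg' hf')
        (eq_dioph hn (add_dioph (add_dioph (mul_dioph hf' hf') hf') hg')))
  refine Dioph.ext h1 fun w => ?_
  change _ ↔ Nat.pair _ _ = _
  rw [Nat.pair]
  constructor
  · rintro (⟨h2, h3⟩ | ⟨h2, h3⟩)
    · rw [if_pos h2]; exact h3.symm
    · rw [if_neg (by omega)]; exact h3.symm
  · intro h2
    rcases Nat.lt_or_ge (f (w ∘ some)) (g (w ∘ some)) with h3 | h3
    · rw [if_pos h3] at h2
      exact Or.inl ⟨h3, h2.symm⟩
    · rw [if_neg (by omega)] at h2
      exact Or.inr ⟨h3, h2.symm⟩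

theorem unpair1_dioph (hf : DiophFn f) : DiophFn fun v => (f v).unpair.1 := by
  have h1 : Dioph {w : Option α → ℕ | ∃ b : ℕ, Option.elim' b w ∈
      {u : Option (Option α) → ℕ | Nat.pair (u (some none)) (u none) = f (u ∘ (some ∘ some))}} :=
    ex1_dioph (eq_dioph (pair_dioph (proj_dioph (some none)) (proj_dioph none))
      (reindex_diophFn (some ∘ some) hf))
  refine Dioph.ext h1 fun w => ?_
  change (∃ b, Nat.pair (w none) b = f (w ∘ some)) ↔ (f (w ∘ some)).unpair.1 = w none
  constructor
  · rintro ⟨b, hb⟩
    rw [← hb, Nat.unpair_pair]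
  · intro h
    refine ⟨(f (w ∘ some)).unpair.2, ?_⟩
    rw [← h, Nat.pair_unpair]

theorem unpair2_dioph (hf : DiophFn f) : DiophFn fun v => (f v).unpair.2 := by
  have h1 : Dioph {w : Option α → ℕ | ∃ b : ℕ, Option.elim' b w ∈
      {u : Option (Option α) → ℕ | Nat.pair (u none) (u (some none)) = f (u ∘ (some ∘ some))}} :=
    ex1_dioph (eq_dioph (pair_dioph (proj_dioph none) (proj_dioph (some none)))
      (reindex_diophFn (some ∘ some) hf))
  refine Dioph.ext h1 fun w => ?_
  change (∃ b, Nat.pair b (w none) = f (w ∘ some)) ↔ (f (w ∘ some)).unpair.2 = w none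
  constructor
  · rintro ⟨b, hb⟩
    rw [← hb, Nat.unpair_pair]
  · intro h
    refine ⟨(f (w ∘ some)).unpair.1, ?_⟩
    rw [← h, Nat.pair_unpair]

theorem beta_dioph (hf : DiophFn f) (hg : DiophFn g) : DiophFn fun v => Nat.beta (f v) (g v) :=
  mod_dioph (unpair1_dioph hf)
    (add_dioph (mul_dioph (add_dioph hg (const_dioph 1)) (unpair2_dioph hf)) (const_dioph 1))

end

/-- The primitive recursion scheme in terms of the beta function. -/
theorem rec_iff (a : ℕ) (G : ℕ → ℕ → ℕ) (n x : ℕ) :
    (Nat.rec a (fun y IH => G y IH) n : ℕ) = x ↔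
    ∃ s, Nat.beta s 0 = a ∧ (∀ k < n, Nat.beta s (k + 1) = G k (Nat.beta s k)) ∧
      Nat.beta s n = x := by
  constructor
  · intro h
    let l : List ℕ := List.ofFn fun i : Fin (n + 1) => (Nat.rec a (fun y IH => G y IH) i.1 : ℕ)
    have hl : l.length = n + 1 := List.length_ofFn
    have hb : ∀ k ≤ n, Nat.beta (Nat.unbeta l) k = (Nat.rec a (fun y IH => G y IH) k : ℕ) := by
      intro k hk
      have h1 := Nat.beta_unbeta_coe l ⟨k, by rw [hl]; omega⟩
      have h2 : l[(⟨k, by rw [hl]; omega⟩ : Fin l.length)] =
          (Nat.rec a (fun y IH => G y IH) k : ℕ) := List.getElem_ofFn _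
      rw [← h2]
      exact h1
    refine ⟨Nat.unbeta l, ?_, ?_, ?_⟩
    · exact hb 0 (by omega)
    · intro k hk
      rw [hb (k + 1) (by omega), hb k (by omega)]
    · rw [hb n le_rfl, h]
  · rintro ⟨s, h0, hs, hx⟩
    have h : ∀ k ≤ n, Nat.beta s k = (Nat.rec a (fun y IH => G y IH) k : ℕ) := by
      intro k
      induction k with
      | zero => intro _; exact h0
      | succ k ih => intro hk; rw [hs k (by omega), ih (by omega)]
    rw [← h n le_rfl, hx]

/-- Primitive recursive functions are Diophantine. -/
theorem primrec_dioph {f : ℕ → ℕ} (hf : Nat.Primrec f) :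
    ∀ {α : Type} {g : (α → ℕ) → ℕ}, DiophFn g → DiophFn fun v => f (g v) := by
  induction hf with
  | zero => intro α g hg; exact const_dioph 0
  | succ => intro α g hg; exact add_dioph hg (const_dioph 1)
  | left => intro α g hg; exact unpair1_dioph hg
  | right => intro α g hg; exact unpair2_dioph hg
  | pair _ _ ih1 ih2 => intro α g hg; exact pair_dioph (ih1 hg) (ih2 hg)
  | comp _ _ ih1 ih2 => intro α g hg; exact ih1 (ih2 hg)
  | @prec F G _ _ ihF ihG =>
    intro α g hg
    -- the innermost set
    have h1 : Dioph {t : Option (Option (Option α)) → ℕ |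
        Nat.beta (t (some none)) (t none + 1) =
        G (Nat.pair (g (t ∘ (some ∘ (some ∘ some)))).unpair.1
          (Nat.pair (t none) (Nat.beta (t (some none)) (t none))))} := by
      have hg' : DiophFn fun t : Option (Option (Option α)) → ℕ => g (t ∘ (some ∘ (some ∘ some))) :=
        reindex_diophFn _ hg
      exact eq_dioph (beta_dioph (proj_dioph _) (add_dioph (proj_dioph _) (const_dioph 1)))
        (ihG (pair_dioph (unpair1_dioph hg') (pair_dioph (proj_dioph _)
          (beta_dioph (proj_dioph _) (proj_dioph _)))))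
    have hg2 : DiophFn fun u : Option (Option α) → ℕ => g (u ∘ (some ∘ some)) :=
      reindex_diophFn _ hg
    have h2 := forall_dioph h1 (unpair2_dioph hg2)
    have h3 : Dioph {u : Option (Option α) → ℕ |
        Nat.beta (u none) 0 = F (g (u ∘ (some ∘ some))).unpair.1} :=
      eq_dioph (beta_dioph (proj_dioph _) (const_dioph 0)) (ihF (unpair1_dioph hg2))
    have h4 : Dioph {u : Option (Option α) → ℕ |
        Nat.beta (u none) (g (u ∘ (some ∘ some))).unpair.2 = u (some none)} :=
      eq_dioph (beta_dioph (proj_dioph _) (unpair2_dioph hg2)) (proj_dioph _)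
    have h5 := ex1_dioph (Dioph.inter h3 (Dioph.inter h2 h4))
    refine Dioph.ext h5 fun w => ?_
    change (∃ s, Nat.beta s 0 = F (g (w ∘ some)).unpair.1 ∧
      (∀ k < (g (w ∘ some)).unpair.2, Nat.beta s (k + 1) =
        G (Nat.pair (g (w ∘ some)).unpair.1 (Nat.pair k (Nat.beta s k)))) ∧
      Nat.beta s (g (w ∘ some)).unpair.2 = w none) ↔
      Nat.unpaired (fun z n => n.rec (F z) fun y IH => G (Nat.pair z (Nat.pair y IH)))
        (g (w ∘ some)) = w none
    rw [Nat.unpaired]
    exact (rec_iff _ (fun y IH => G (Nat.pair (g (w ∘ some)).unpair.1 (Nat.pair y IH))) _ _).symm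

open Nat.Partrec in
/-- There is a Diophantine set of natural numbers that is not computable. -/
theorem exists_dioph_not_computable :
    ∃ S : Set ℕ, ¬ ComputablePred (fun n => n ∈ S) ∧ Dioph {v : Unit → ℕ | v () ∈ S} := by
  classical
  let F : ℕ → ℕ := fun m => Encodable.encode
    (Code.evaln m.unpair.2 (Denumerable.ofNat Code m.unpair.1) 0)
  have hF : Nat.Primrec F := by
    rw [← Primrec.nat_iff]
    refine Primrec.encode.comp ?_
    have h1 : Primrec fun m : ℕ => ((m.unpair.2, Denumerable.ofNat Code m.unpair.1), 0) := by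
      refine Primrec.pair (Primrec.pair ?_ ?_) (Primrec.const 0)
      · exact Primrec.snd.comp Primrec.unpair
      · exact (Primrec.ofNat Code).comp (Primrec.fst.comp Primrec.unpair)
    exact Code.primrec_evaln.comp h1
  refine ⟨{n | (Code.eval (Denumerable.ofNat Code n) 0).Dom}, ?_, ?_⟩
  · intro h
    apply ComputablePred.halting_problem 0
    obtain ⟨f, hf, hfp⟩ := ComputablePred.computable_iff.mp h
    rw [ComputablePred.computable_iff]
    refine ⟨fun c => f (Encodable.encode c), hf.comp Computable.encode, ?_⟩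
    funext c
    have := congrFun hfp (Encodable.encode c)
    simp only [Set.mem_ofPred_eq, Denumerable.ofNat_encode] at this
    exact this
  · have h1 : Dioph {v : Unit → ℕ | ∃ k, Option.elim' k v ∈
        {u : Option Unit → ℕ | F (Nat.pair (u (some ())) (u none)) ≠ 0}} :=
      ex1_dioph (ne_dioph (primrec_dioph hF (pair_dioph (proj_dioph _) (proj_dioph _)))
        (const_dioph 0))
    refine Dioph.ext h1 fun v => ?_
    change (∃ k, F (Nat.pair (v ()) k) ≠ 0) ↔ (Code.eval (Denumerable.ofNat Code (v ())) 0).Dom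
    constructor
    · rintro ⟨k, hk⟩
      simp only [F, Nat.unpair_pair] at hk
      cases h2 : Code.evaln k (Denumerable.ofNat Code (v ())) 0 with
      | none => rw [h2] at hk; simp at hk
      | some x =>
        have h3 : x ∈ Code.eval (Denumerable.ofNat Code (v ())) 0 :=
          Code.evaln_sound (k := k) (by rw [h2]; rfl)
        exact Part.dom_iff_mem.mpr ⟨x, h3⟩
    · intro h
      obtain ⟨x, hx⟩ := Part.dom_iff_mem.mp h
      obtain ⟨k, hk⟩ := Code.evaln_complete.mp hx
      refine ⟨k, ?_⟩
      simp only [F, Nat.unpair_pair]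
      have hk' : Code.evaln k (Denumerable.ofNat Code (v ())) 0 = some x := hk
      rw [hk']
      simp

end Pool.Agent.H48.MRDP
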